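import Mathlib

/-!
The H-process, its running time and the maximum running time (MP_aef1a0_co).
-/

set_option autoImplicit false

namespace MPaef1a0

open SimpleGraph

/-! ## The process (faithful to the problem file) -/

section Process

variable {V W : Type} [Fintype V]

/-- One step of the `H`-process: a pair `uv` becomes an edge when it already is one or when adding
it increases the number of subgraphs isomorphic to `H`. -/
noncomputable def step (H : SimpleGraph W) (G : SimpleGraph V) : SimpleGraph V :=
  SimpleGraph.fromRel
    (fun u v => G.Adj u v ∨ G.copyCount H < (G ⊔ SimpleGraph.edge u v).copyCount H)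

/-- The `H`-process started at `G`. -/
noncomputable def proc (H : SimpleGraph W) (G : SimpleGraph V) : ℕ → SimpleGraph V
  | 0 => G
  | t + 1 => step H (proc H G t)

/-- The running time. -/
noncomputable def runTime (H : SimpleGraph W) (G : SimpleGraph V) : ℕ :=
  sInf {t : ℕ | proc H G t = proc H G (t + 1)}

/-- The maximum running time on `n` vertices. -/
noncomputable def maxRun (H : SimpleGraph W) (n : ℕ) : ℕ :=
  sSup (Set.range fun G : SimpleGraph (Fin n) => runTime H G)

end Process

end MPaef1a0
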