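import Pool.Agent.Work.MP_aef1a0_co.Bd.B01
import Pool.Agent.Work.MP_aef1a0_co.Bd.B02
import Pool.Agent.Work.MP_aef1a0_co.Bd.B03

/-!
Assembly of all blocks.
-/

set_option autoImplicit false

namespace MPaef1a0

theorem stepAll : stStep := stepThm count

theorem rigidAll : stRigid := rigid tagRigid triangle

theorem tagBadAll : stTagBad := tagBad rigidAll

theorem k12All : stK12Bad := k12Bad tagBadAll

theorem stepClosedAll : stStepClosed := stepClosed stepAll nearClosed

theorem swapAll : stSwap := swap stepAll

theorem hsAll : stHS := hsExists stepAll swapAll

theorem qclqAll : stQclq := qclq stepAll swapAll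

theorem rh1All : stRH1 := rh1 stepAll

theorem rh2All : stRH2 := rh2 stepAll

theorem growAll : stGrow := grow stepAll rh1All rh2All k12All patTwoEC union

theorem dichAll : stDich := dich stepAll growAll stepClosedAll

theorem badAll : stBad := bad rh1All tagBadAll k12All patTwoEC growAll

theorem idealGrowAll : stIdealGrow := idealGrow stepAll ideal k12All

theorem idealBadAll : stIdealBad := idealBad stepAll ideal tagBadAll k12All idealGrowAll

theorem changeAll : stChange := change skew

theorem chainAll : stChain := chain stepAll

theorem jointAll : stJoint := joint rigidAll patTwoEC union

theorem eltAll : stElt := elt jointAll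

theorem worldAll : stWorld := worldOf jointAll eltAll

theorem staticUniqAll : stStaticUniq := staticUniq jointAll patConn

theorem staticCountAll : stStaticCount := staticCount staticUniqAll

theorem roleAll : stRole := role jointAll

theorem staticPartAll : stStaticPart := staticPart split

theorem pureAll : stPure := pureRun run jointAll eltAll worldAll split

theorem goodChainAll : stGoodChain := goodChain roleAll staticPartAll staticCountAll pureAll blocks

theorem nonIdealAll : stNonIdeal :=
  nonIdeal stepAll nearClosed stepClosedAll patTwoEC qclqAll k12All dichAll badAll chainAll
    goodChainAll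

theorem idealTimeAll : stIdealTime :=
  idealTime stepAll nearClosed stepClosedAll patTwoEC qclqAll k12All ideal idealBadAll chainAll
    goodChainAll

theorem upperAll : stUpper := upper hsAll changeAll nonIdealAll idealTimeAll

theorem lowStepAll : stLowStep := lowStep stepAll nearClosed patTwoEC rigidAll yAx rank

theorem lowStableAll : stLowStable := lowStable stepAll yAx

theorem lowerAll : stLower := lower lowStepAll lowStableAll reach stable

theorem finalAll : stFinal := final upperAll lowerAll isoV isoH maxAttained asym

end MPaef1a0
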